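import Mathlib
import Pool.Agent.TH804.DL3
import Pool.Agent.R303.LM.A2

/-!
Local form: near a weighted maximum the set of the ordinates of the small values has a very small measure, for
all radii and all sizes of the conductor.
-/

set_option autoImplicit false

open Complex Filter Topology Metric Set Finset MeasureTheory
open W587.PL

set_option maxHeartbeats 4000000

namespace Pool.Agent.R303.LG

open Pool.Agent.TH804.DL Pool.Agent.R303.LM

/-- Near a weighted maximum the ordinates of the small values in a disc of radius `r` have a very small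
measure, for all radii. -/
theorem small_local2 {ε B : ℝ} (hε : 0 < ε) (hε1 : ε ≤ 1) (hB : 1 ≤ B) :
    ∃ a δ W Λ₀ : ℝ, 1 / 2 < a ∧ a ≤ 3 / 4 ∧ 0 < δ ∧ 1 ≤ W ∧ 1 ≤ Λ₀ ∧
    ∀ (F : ℂ → ℂ) (Λ ℓ : ℝ), Λ₀ ≤ Λ → Loc F a δ B W Λ ℓ → 1 ≤ ‖F 0‖ →
      ∃ y₀ : ℝ, |y₀| + 1 ≤ W ∧ ‖F 0‖ ≤ ‖F (y₀ * I)‖ ∧
        ∀ r : ℝ, 0 < r → (B + 1) * r ≤ ε / 4 →
          volume {t : ℝ | ∃ z : ℂ, z.im = t ∧ ‖z - y₀ * I‖ ≤ r ∧ ‖F z‖ ≤ Real.exp (-(ε * Λ)) * ‖F 0‖} ≤
            ENNReal.ofReal (41 * r * Real.exp (-(ε * Λ /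
              (2 * (1 + r * (max (ℓ - 4 * Real.log ‖F 0‖) 0 + ε / 4 * Λ)))))) := by
  classical
  have hpi := Real.pi_pos
  have hpi3 := Real.pi_gt_d2
  have he9 := Real.exp_one_gt_d9
  have he9' := Real.exp_one_lt_d9
  obtain ⟨a, δ, W, ha, ha', hδ, hW, hpk⟩ := peak_local hε hε1 hB
  refine ⟨a, δ, W, 1 + 1650 / ε ^ 2, ha, ha', hδ, hW, by
    have : 0 ≤ 1650 / ε ^ 2 := by positivity
    linarith, fun F Λ ℓ hΛ H hF0 => ?_⟩
  have hΛ' : 1650 / ε ^ 2 ≤ Λ := by linarith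
  have hΛ1 : 1 ≤ Λ := by
    have : 0 ≤ 1650 / ε ^ 2 := by positivity
    linarith
  obtain ⟨y₀, M, hy₀, hFM, hMF, G, hGd, hGy, hbox', hGF, hfB, hℓB, hord⟩ := hpk F Λ ℓ hΛ1 H hF0
  have hM1 : 1 ≤ M := hF0.trans hFM
  have hM0 : 0 < M := by linarith
  have hΛ0 : 0 < Λ := by linarith
  refine ⟨y₀, hy₀, hFM.trans hMF, fun r hr0 hr2 => ?_⟩
  set P : ℝ := max (ℓ - 4 * Real.log ‖F 0‖) 0 with hP
  have hP0 : 0 ≤ P := le_max_right _ _
  have hPΛ : P ≤ B * Λ := by
    apply max_le _ (by positivity)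
    have := Real.log_nonneg hF0
    linarith
  set D : ℝ := P + ε / 4 * Λ with hD
  set τ : ℝ := D / 2 with hτ
  have hεΛ : 0 < ε * Λ := by positivity
  have hD0 : 0 < D := by positivity
  have hDΛ : D ≤ (B + 1) * Λ := by
    rw [hD]
    nlinarith
  have hτ0 : 0 ≤ τ := by positivity
  have hr8 : r ≤ 1 / 8 := by nlinarith
  by_contra hcon
  push Not at hcon
  set lam : ℝ := ε * Λ / (2 * (1 + r * D)) with hlam
  have hrD : 0 < r * D := by positivity
  have hlam0 : 0 < lam := by positivity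
  have hlamD : (1 + r * D) * lam = ε * Λ / 2 := by rw [hlam]; field_simp
  set m : ℝ := 41 * r * Real.exp (-lam) with hm
  have hm0 : 0 < m := by positivity
  set A : Set ℝ := {t : ℝ | ∃ z : ℂ, z.im = t ∧ ‖z - y₀ * I‖ ≤ r ∧
    ‖F z‖ ≤ Real.exp (-(ε * Λ)) * ‖F 0‖} with hA
  set q : ℝ := Real.exp 1 * r / Real.pi * D with hq
  have hq0 : 0 ≤ q := by positivity
  set k : ℕ := ⌊q⌋₊ + 1 with hk
  have hkq : q < k := by
    rw [hk]; push_cast; exact Nat.lt_floor_add_one q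
  have hkq' : (k : ℝ) ≤ q + 1 := by
    rw [hk]; push_cast
    have := Nat.floor_le hq0
    linarith
  have hk0 : (0 : ℝ) ≤ k := Nat.cast_nonneg k
  set s : ℝ := m / (2 * (k + 1)) with hs
  have hs0 : 0 < s := by positivity
  have hsk : 2 * s * k ≤ m := by
    have e1 : 2 * s * k = m * (k / (k + 1)) := by rw [hs]; field_simp
    rw [e1]
    have h1 : (k : ℝ) / (k + 1) ≤ 1 := by
      rw [div_le_one (by positivity)]; linarith
    nlinarith
  obtain ⟨S₁, hS₁, hc₁, hsep₁⟩ := sep_points A hs0 k (lt_of_le_of_lt (ENNReal.ofReal_le_ofReal hsk) hcon)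
  have hch : ∀ t : ℝ, ∃ z : ℂ, t ∈ A → (z.im = t ∧ ‖z - y₀ * I‖ ≤ r ∧
      ‖F z‖ ≤ Real.exp (-(ε * Λ)) * ‖F 0‖) := by
    intro t
    by_cases ht : t ∈ A
    · obtain ⟨z, hz⟩ := ht
      exact ⟨z, fun _ => hz⟩
    · exact ⟨0, fun h => absurd h ht⟩
  choose Z hZ using hch
  set S : Finset ℂ := S₁.image (fun t => Z t - y₀ * I) with hS
  have himZ : ∀ t ∈ S₁, (Z t - y₀ * I).im = t - y₀ := by
    intro t ht
    have h1 := (hZ t (hS₁ t ht)).1
    simp [h1]
  have hinj : Set.InjOn (fun t => Z t - (y₀ : ℂ) * I) S₁ := by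
    intro t ht t' ht' h
    have h1 := congrArg Complex.im h
    simp only at h1
    rw [himZ t ht, himZ t' ht'] at h1
    linarith
  have hcS : S.card = k + 1 := by rw [hS, card_image_of_injOn hinj, hc₁]
  have hSr : ∀ z ∈ S, ‖z‖ ≤ r := by
    intro z hz
    obtain ⟨t, ht, rfl⟩ := Finset.mem_image.1 hz
    exact (hZ t (hS₁ t ht)).2.1
  have hsepS : ∀ z ∈ S, ∀ w ∈ S, z ≠ w → s ≤ |z.im - w.im| := by
    intro z hz w hw hne
    obtain ⟨t, ht, rfl⟩ := Finset.mem_image.1 hz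
    obtain ⟨t', ht', rfl⟩ := Finset.mem_image.1 hw
    rw [himZ t ht, himZ t' ht']
    have h1 := hsep₁ t ht t' ht' (fun h => hne (by rw [h]))
    rwa [show t - y₀ - (t' - y₀) = t - t' by ring]
  set g : ℂ → ℂ := fun z => G (y₀ * I + z) with hg
  have hgd : Differentiable ℂ g := hGd.comp (by fun_prop)
  have key : ∀ z : ℂ, (y₀ : ℂ) * I + z = (z.re : ℂ) + ((y₀ + z.im : ℝ) : ℂ) * I := by
    intro z
    apply Complex.ext <;> simp
  set ms : ℝ := Real.exp (-(ε * Λ)) * M * Real.exp (ε / 4 * Λ) with hms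
  have hms0 : 0 ≤ ms := by positivity
  have hgS : ∀ z ∈ S, ‖g z‖ ≤ ms := by
    intro z hz
    obtain ⟨t, ht, rfl⟩ := Finset.mem_image.1 hz
    obtain ⟨h1, h2, h3⟩ := hZ t (hS₁ t ht)
    have h4 := Complex.abs_re_le_norm (Z t - y₀ * I)
    have h5 : (Z t - (y₀ : ℂ) * I).re = (Z t).re := by simp
    rw [h5] at h4
    have h6 : (y₀ : ℂ) * I + (Z t - y₀ * I) = ((Z t).re : ℂ) + ((Z t).im : ℂ) * I := by
      apply Complex.ext <;> simp
    show ‖G ((y₀ : ℂ) * I + (Z t - y₀ * I))‖ ≤ ms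
    rw [h6]
    refine (hGF (Z t).re (Z t).im (by linarith)).trans ?_
    have h7 : ((Z t).re : ℂ) + ((Z t).im : ℂ) * I = Z t := Complex.re_add_im _
    rw [h7, hms]
    apply mul_le_mul
    · exact h3.trans (mul_le_mul_of_nonneg_left hFM (Real.exp_pos _).le)
    · apply Real.exp_le_exp.2
      have h8 : |(Z t).re| ≤ r := h4.trans h2
      calc (B + 1) * Λ * |(Z t).re| ≤ (B + 1) * Λ * r :=
            mul_le_mul_of_nonneg_left h8 (by positivity)
        _ = ((B + 1) * r) * Λ := by ring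
        _ ≤ ε / 4 * Λ := mul_le_mul_of_nonneg_right hr2 hΛ0.le
    · exact (Real.exp_pos _).le
    · positivity
  set R : ℝ := Real.exp 1 * r with hR
  have hR0 : 0 < R := by positivity
  have hR2 : R ≤ 1 / 2 := by rw [hR]; nlinarith
  have hrR : r ≤ R := by rw [hR]; nlinarith
  set X : ℝ := Real.exp 1 * (2 * (R + r) / s) / (k + 1) with hX
  have hX0 : 0 ≤ X := by positivity
  have hXle : X ≤ Real.exp lam := by
    have e1 : X = 4 * Real.exp 1 * (Real.exp 1 + 1) * r / m := by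
      rw [hX, hs, hR]; field_simp
      ring
    rw [e1, div_le_iff₀ hm0, hm]
    have e2 : Real.exp lam * (41 * r * Real.exp (-lam)) = 41 * r := by
      have : Real.exp lam * Real.exp (-lam) = 1 := by
        rw [← Real.exp_add]; simp
      calc _ = 41 * r * (Real.exp lam * Real.exp (-lam)) := by ring
        _ = _ := by rw [this, mul_one]
    rw [e2]
    have h3 : 4 * Real.exp 1 * (Real.exp 1 + 1) ≤ 41 := by nlinarith
    exact mul_le_mul_of_nonneg_right h3 hr0.le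
  set p : ℝ := (k + 1) * (ms * (X ^ k * Real.exp 1)) with hp
  have hp0 : 0 ≤ p := by positivity
  have hPP : ∀ z : ℂ, ‖z‖ ≤ R → ‖(PP S g).eval z‖ ≤ p := fun z hz =>
    PP_le' hr0 hR0 hs0 hms0 hcS hSr hsepS hgS hz
  -- the size of `p`
  have hqle : q ≤ r * D := by
    rw [hq]
    have h1 : Real.exp 1 / Real.pi ≤ 1 := by
      rw [div_le_iff₀ hpi]; nlinarith
    calc Real.exp 1 * r / Real.pi * D = (Real.exp 1 / Real.pi) * (r * D) := by ring
      _ ≤ 1 * (r * D) := mul_le_mul_of_nonneg_right h1 hrD.le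
      _ = r * D := one_mul _
  have hrDΛ : r * D ≤ ε / 4 * Λ := by
    calc r * D ≤ r * ((B + 1) * Λ) := mul_le_mul_of_nonneg_left hDΛ hr0.le
      _ = ((B + 1) * r) * Λ := by ring
      _ ≤ ε / 4 * Λ := mul_le_mul_of_nonneg_right hr2 hΛ0.le
  have hXk : X ^ k ≤ Real.exp (0.5 * (ε * Λ)) := by
    calc X ^ k ≤ Real.exp lam ^ k := pow_le_pow_left₀ hX0 hXle k
      _ = Real.exp (k * lam) := by rw [← Real.exp_nat_mul]
      _ ≤ Real.exp (0.5 * (ε * Λ)) := by
        apply Real.exp_le_exp.2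
        have h1 : (k : ℝ) ≤ 1 + r * D := by linarith
        calc (k : ℝ) * lam ≤ (1 + r * D) * lam := mul_le_mul_of_nonneg_right h1 hlam0.le
          _ = ε * Λ / 2 := hlamD
          _ = 0.5 * (ε * Λ) := by ring
  have h4p : 4 * p ≤ M := by
    have h1 : 4 * Real.exp 1 * (k + 1) ≤ Real.exp (0.2 * (ε * Λ)) := by
      have h2 : (k : ℝ) + 1 ≤ 3 * Λ := by
        have : ε / 4 * Λ ≤ 1 / 4 * Λ := by
          apply mul_le_mul_of_nonneg_right _ hΛ0.le
          linarith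
        linarith
      have h3 : (0.2 * (ε * Λ)) ^ 2 / 2 ≤ Real.exp (0.2 * (ε * Λ)) := by
        have := Real.pow_div_factorial_le_exp (0.2 * (ε * Λ)) (by positivity) 2
        simpa [Nat.factorial] using this
      have h4 : 1650 ≤ Λ * ε ^ 2 := by rwa [div_le_iff₀ (by positivity)] at hΛ'
      have h5 : 4 * Real.exp 1 * (k + 1) ≤ 11 * (3 * Λ) := by
        apply mul_le_mul _ h2 (by positivity) (by norm_num)
        linarith
      have h6 : 33 * Λ ≤ (0.2 * (ε * Λ)) ^ 2 / 2 := by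
        have e : (0.2 * (ε * Λ)) ^ 2 / 2 = 0.02 * (Λ * ε ^ 2) * Λ := by ring
        rw [e]
        apply mul_le_mul_of_nonneg_right _ hΛ0.le
        linarith
      linarith
    have e1 : 4 * p = M * ((4 * Real.exp 1 * (k + 1)) * (X ^ k * (Real.exp (-(ε * Λ)) * Real.exp (ε / 4 * Λ)))) := by
      rw [hp, hms]; ring
    have h2 : (4 * Real.exp 1 * (k + 1)) * (X ^ k * (Real.exp (-(ε * Λ)) * Real.exp (ε / 4 * Λ))) ≤ 1 := by
      calc (4 * Real.exp 1 * (k + 1)) * (X ^ k * (Real.exp (-(ε * Λ)) * Real.exp (ε / 4 * Λ)))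
          ≤ Real.exp (0.2 * (ε * Λ)) * (Real.exp (0.5 * (ε * Λ)) * (Real.exp (-(ε * Λ)) * Real.exp (ε / 4 * Λ))) := by
            apply mul_le_mul h1 _ (by positivity) (Real.exp_pos _).le
            exact mul_le_mul_of_nonneg_right hXk (by positivity)
        _ = Real.exp (0.2 * (ε * Λ) + (0.5 * (ε * Λ) + (-(ε * Λ) + ε / 4 * Λ))) := by
            rw [Real.exp_add, Real.exp_add, Real.exp_add]
        _ ≤ 1 := by
            rw [Real.exp_le_one_iff]
            nlinarith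
    rw [e1]
    nlinarith
  have hmain := local_count' (g := g) hgd hR0 hM1 hτ0 (by
      rw [hg]
      simp only [add_zero]
      rw [hGy]) (fun z hz => by
      rw [hg]
      simp only
      rw [key z]
      have h1 := Complex.abs_re_le_norm z
      have h2 := Complex.abs_im_le_norm z
      exact hbox' z.re (y₀ + z.im) (by linarith) (by
        have := abs_add_le y₀ z.im
        linarith)) (S := S) (fun z hz => (hSr z hz).trans hrR) hp0 hPP h4p
  have hne0 : ∀ z ∈ S, z ≠ 0 := by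
    intro z hz h0
    have h1 := hgS z hz
    rw [h0] at h1
    have h2 : ‖g 0‖ = M := by
      rw [hg]
      simp only [add_zero]
      rw [hGy]
    rw [h2, hms] at h1
    have h3 : Real.exp (-(ε * Λ)) * M * Real.exp (ε / 4 * Λ) = M * Real.exp (-(3 / 4 * (ε * Λ))) := by
      rw [mul_comm (Real.exp (-(ε * Λ))) M, mul_assoc, ← Real.exp_add]
      congr 2; ring
    rw [h3] at h1
    have h4 : Real.exp (-(3 / 4 * (ε * Λ))) < 1 := by
      rw [Real.exp_lt_one_iff]
      have : 0 < 3 / 4 * (ε * Λ) := by positivity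
      linarith
    nlinarith
  have hsum : ((k : ℝ) + 1) ≤ ∑ z ∈ S, Real.log (R / ‖z‖) := by
    have h1 : ∑ z ∈ S, (1 : ℝ) ≤ ∑ z ∈ S, Real.log (R / ‖z‖) := by
      apply sum_le_sum
      intro z hz
      have h2 : 0 < ‖z‖ := norm_pos_iff.2 (hne0 z hz)
      rw [Real.le_log_iff_exp_le (by positivity), le_div_iff₀ h2]
      exact mul_le_mul_of_nonneg_left (hSr z hz) (Real.exp_pos _).le
    rw [sum_const, hcS, nsmul_eq_mul, mul_one] at h1
    push_cast at h1
    exact h1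
  have hfin : 2 * R / Real.pi * τ ≤ q := by
    rw [hR, hτ, hq]
    exact le_of_eq (by ring)
  linarith

end Pool.Agent.R303.LG
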