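import Mathlib
import Pool.Agent.TH804.FM1
import Pool.Agent.R303.LG.A1

/-!
Thin sublevel sets near large values, for families of L-functions (`W587.PL.Fam2`).
-/

set_option autoImplicit false

open Complex Filter Topology Set MeasureTheory
open W587.PL Pool.Agent.TH804.DL

set_option maxHeartbeats 4000000

namespace Pool.Agent.R303.LG

open Pool.Agent.TH804.FM (DD)

variable {ι : Type*} {L : ι → ℂ → ℂ} {X Q : ι → ℝ → ℝ}

/-- the ordinates of the points `s` of the disc `|s - (1/2 + iT)| ≤ r` with `|L i s| ≤ v` -/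
def Low (L : ι → ℂ → ℂ) (i : ι) (T r v : ℝ) : Set ℝ :=
  {t : ℝ | ∃ s : ℂ, s.im = t ∧ ‖s - (1 / 2 + T * Complex.I)‖ ≤ r ∧ ‖L i s‖ ≤ v}

lemma Low_mono {i : ι} {T r v v' : ℝ} (h : v ≤ v') : Low L i T r v ⊆ Low L i T r v' := by
  rintro t ⟨s, h1, h2, h3⟩
  exact ⟨s, h1, h2, h3.trans h⟩

/-- **the law** -/
theorem law2 (H : Fam2 L X Q) : ∃ c : ℝ, 0 < c ∧ ∀ ε : ℝ, 0 < ε → ε ≤ 1 →
    ∃ W X₁ : ℝ, 0 ≤ W ∧ 1 ≤ X₁ ∧ ∀ (i : ι) (T : ℝ), X₁ ≤ X i T → 1 ≤ ‖L i (1 / 2 + T * Complex.I)‖ →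
      0 < DD L X Q i ε T ∧
      ∃ T₀ : ℝ, |T₀ - T| ≤ W ∧ ‖L i (1 / 2 + T * Complex.I)‖ ≤ ‖L i (1 / 2 + T₀ * Complex.I)‖ ∧
        ∀ r : ℝ, 0 < r → r ≤ c * ε →
          volume (Low L i T₀ r (X i T ^ (-ε) * ‖L i (1 / 2 + T * Complex.I)‖)) ≤
            ENNReal.ofReal (41 * r * Real.exp (-(ε * Real.log (X i T) /
              (2 * (1 + r * DD L X Q i ε T))))) := by
  classical
  obtain ⟨B, hB, hloc⟩ := H.loc
  set c : ℝ := 1 / (4 * (B + 1)) with hc
  have hc0 : 0 < c := by positivity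
  have hc1 : (B + 1) * c = 1 / 4 := by rw [hc]; field_simp
  refine ⟨c, hc0, fun ε hε hε1 => ?_⟩
  obtain ⟨a, δ, W, Λ₀, ha, ha', hδ, hW, hΛ₀, hlg⟩ := small_local2 (ε := ε) (B := B) hε hε1 hB
  obtain ⟨a₂, δ₂, W₂, ha₂, ha₂', hδ₂, hW₂, hcv⟩ :=
    convex_local (ε := ε / 8) (B := B) (by linarith) (by linarith) hB
  obtain ⟨Λ₁, hΛ₁⟩ := hloc a δ W ha ha' hδ (by linarith)
  obtain ⟨Λ₂, hΛ₂⟩ := hloc a₂ δ₂ W₂ ha₂ ha₂' hδ₂ hW₂
  refine ⟨W, Real.exp (Λ₀ + |Λ₁| + |Λ₂| + 8 / ε), by linarith,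
    Real.one_le_exp (by positivity), fun i T hX hV => ?_⟩
  have hX1 := H.X1 i T
  have hXp : 0 < X i T := by linarith
  set Λ : ℝ := Real.log (X i T) with hΛd
  set ℓ : ℝ := Real.log (Q i T) with hℓd
  have hΛ : Λ₀ + |Λ₁| + |Λ₂| + 8 / ε ≤ Λ := by
    have := Real.log_le_log (Real.exp_pos _) hX
    rwa [Real.log_exp] at this
  have hb1 := le_abs_self Λ₁
  have hb2 := le_abs_self Λ₂
  have hb3 := abs_nonneg Λ₁
  have hb4 := abs_nonneg Λ₂
  have hb5 : 0 < 8 / ε := by positivity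
  have hΛp : 0 < Λ := by linarith
  have hεΛ : 8 ≤ ε * Λ := by
    have h1 : 8 / ε ≤ Λ := by linarith
    rw [div_le_iff₀ hε] at h1; linarith
  have hL := hΛ₁ i T (by linarith)
  have hL2 := hΛ₂ i T (by linarith)
  set V : ℝ := ‖L i (1 / 2 + T * Complex.I)‖ with hVd
  have hV0 : 0 < V := by linarith
  have hsh0 : ‖shf L i T 0‖ = V := by rw [shf_zero]
  have hcx := hcv _ _ _ hΛp.le hL2
  rw [hsh0] at hcx
  have hlV : Real.log V ≤ ε / 8 * Λ + ℓ / 4 := (Real.log_le_iff_le_exp hV0).2 hcx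
  have hDD : DD L X Q i ε T = ℓ - 4 * Real.log V + ε * Λ := rfl
  have hmax : max (ℓ - 4 * Real.log V) 0 + ε / 4 * Λ ≤ DD L X Q i ε T := by
    rw [hDD]
    rcases max_cases (ℓ - 4 * Real.log V) 0 with ⟨h, _⟩ | ⟨h, _⟩ <;> rw [h]
    · linarith
    · linarith
  have hmx : 0 ≤ max (ℓ - 4 * Real.log V) 0 := le_max_right _ _
  have hD0 : 0 < DD L X Q i ε T := by linarith
  have hTε : X i T ^ (-ε) = Real.exp (-(ε * Λ)) := by
    rw [Real.rpow_def_of_pos hXp]; congr 1; ring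
  refine ⟨hD0, ?_⟩
  obtain ⟨y₀, hy₀, hy₁, hsm⟩ := hlg (shf L i T) Λ ℓ (by linarith) hL (by rw [hsh0]; exact hV)
  rw [hsh0] at hy₁ hsm
  have hy₀W : |y₀| ≤ W := by linarith
  have hcomp : ∀ y : ℝ, shf L i T (y * I) = L i (1 / 2 + ((T + y : ℝ) : ℂ) * Complex.I) := by
    intro y
    unfold shf
    congr 1
    push_cast; ring
  have hcen : ∀ s : ℂ, s - (1 / 2 + ((T + y₀ : ℝ) : ℂ) * Complex.I) =
      (s - (1 / 2 + T * Complex.I)) - y₀ * I := by
    intro s; push_cast; ring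
  refine ⟨T + y₀, by rw [add_sub_cancel_left]; exact hy₀W, by rw [← hcomp]; exact hy₁,
    fun r hr hrc => ?_⟩
  have h1 := hsm r hr (by
    calc (B + 1) * r ≤ (B + 1) * (c * ε) := mul_le_mul_of_nonneg_left hrc (by linarith)
      _ = ((B + 1) * c) * ε := by ring
      _ = ε / 4 := by rw [hc1]; ring)
  set A : Set ℝ := {t : ℝ | ∃ z : ℂ, z.im = t ∧ ‖z - y₀ * I‖ ≤ r ∧
    ‖shf L i T z‖ ≤ Real.exp (-(ε * Λ)) * V} with hA
  have h2 : volume ((fun t : ℝ => t + -T) ⁻¹' A) = volume A := measure_preimage_add_right _ _ _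
  have h3 : volume (Low L i (T + y₀) r (X i T ^ (-ε) * V)) ≤ volume A := by
    rw [← h2]
    apply measure_mono
    rintro t ⟨s, hs1, hs2, hs3⟩
    show t + -T ∈ A
    refine ⟨s - (1 / 2 + T * Complex.I), ?_, ?_, ?_⟩
    · simp [hs1]; ring
    · rwa [← hcen]
    · have e5 : shf L i T (s - (1 / 2 + T * Complex.I)) = L i s := by
        unfold shf; congr 1; ring
      rw [e5, ← hTε]
      exact hs3
  refine h3.trans (h1.trans (ENNReal.ofReal_le_ofReal ?_))
  refine mul_le_mul_of_nonneg_left (Real.exp_le_exp.2 (neg_le_neg ?_)) (by positivity)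
  have h5 : 0 < 1 + r * (max (ℓ - 4 * Real.log V) 0 + ε / 4 * Λ) := by positivity
  have h6 : 1 + r * (max (ℓ - 4 * Real.log V) 0 + ε / 4 * Λ) ≤ 1 + r * DD L X Q i ε T := by
    have := mul_le_mul_of_nonneg_left hmax hr.le
    linarith
  exact div_le_div_of_nonneg_left (by positivity) (by linarith) (by linarith)

/-- `|L i (1/2 + iT)| = O(X^(κ + ε))`, uniformly in the family -/
def Exponent (L : ι → ℂ → ℂ) (X : ι → ℝ → ℝ) (κ : ℝ) : Prop :=
  ∀ ε : ℝ, 0 < ε → ∃ B : ℝ, ∀ (i : ι) (T : ℝ), ‖L i (1 / 2 + T * Complex.I)‖ ≤ B * X i T ^ (κ + ε)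

/-- for every `ε` and all `i`, `T` with `X i T` large there is one radius with a thick sublevel set -/
def Thick (L : ι → ℂ → ℂ) (X Q : ι → ℝ → ℝ) (c κ : ℝ) : Prop :=
  ∀ ε : ℝ, 0 < ε → ε ≤ 1 → ∃ X₁ : ℝ, ∀ (i : ι) (T : ℝ), X₁ ≤ X i T → ∃ r : ℝ, 0 < r ∧ r ≤ c * ε ∧
    ENNReal.ofReal (41 * r * Real.exp (-(ε * Real.log (X i T) /
      (4 * (1 + r * max (Real.log (Q i T) - 4 * κ * Real.log (X i T)) 0))))) <
    volume (Low L i T r (X i T ^ (κ + ε)))

theorem exponent_of_thick (H : Fam2 L X Q) {c : ℝ}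
    (hlaw : ∀ ε : ℝ, 0 < ε → ε ≤ 1 →
      ∃ W X₁ : ℝ, 0 ≤ W ∧ 1 ≤ X₁ ∧ ∀ (i : ι) (T : ℝ), X₁ ≤ X i T →
        1 ≤ ‖L i (1 / 2 + T * Complex.I)‖ → 0 < DD L X Q i ε T ∧
      ∃ T₀ : ℝ, |T₀ - T| ≤ W ∧ ‖L i (1 / 2 + T * Complex.I)‖ ≤ ‖L i (1 / 2 + T₀ * Complex.I)‖ ∧
        ∀ r : ℝ, 0 < r → r ≤ c * ε →
          volume (Low L i T₀ r (X i T ^ (-ε) * ‖L i (1 / 2 + T * Complex.I)‖)) ≤
            ENNReal.ofReal (41 * r * Real.exp (-(ε * Real.log (X i T) /
              (2 * (1 + r * DD L X Q i ε T))))))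
    {κ : ℝ} (hκ : 0 ≤ κ) (h : Thick L X Q c κ) : Exponent L X κ := by
  intro ε hε
  obtain ⟨mX, hmX, hXs⟩ := H.Xs
  obtain ⟨mQ, hmQ, hQs⟩ := H.Qs
  obtain ⟨CC, BC, hCC, hBC, hcr⟩ := H.crude
  set e : ℝ := min (ε / 6) 1 with he
  have he0 : 0 < e := lt_min (by linarith) one_pos
  have he1 : e ≤ 1 := min_le_right _ _
  have he6 : 6 * e ≤ ε := by
    have := min_le_left (ε / 6) 1
    linarith
  obtain ⟨W, X₁, hW, hX₁, hl⟩ := hlaw e he0 he1
  obtain ⟨X₂, hX₂⟩ := h e he0 he1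
  set K : ℝ := (1 + W) ^ mX with hK
  set K' : ℝ := (1 + W) ^ mQ with hK'
  have hK1 : 1 ≤ K := Real.one_le_rpow (by linarith) hmX
  have hK1' : 1 ≤ K' := Real.one_le_rpow (by linarith) hmQ
  have hlK : 0 ≤ Real.log K := Real.log_nonneg hK1
  have hlK' : 0 ≤ Real.log K' := Real.log_nonneg hK1'
  -- the threshold
  set X₃ : ℝ := X₁ + K * |X₂| + (K ^ (κ + e)) ^ (1 / (4 * e)) +
    Real.exp (Real.log K + (4 * κ * Real.log K + Real.log K') / e) with hX₃
  have hp1 : 0 ≤ K * |X₂| := by positivity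
  have hp2 : 0 ≤ (K ^ (κ + e)) ^ (1 / (4 * e)) := by positivity
  have hp3 := Real.exp_pos (Real.log K + (4 * κ * Real.log K + Real.log K') / e)
  refine ⟨1 + CC * X₃ ^ BC, fun i T => ?_⟩
  have hX1 := H.X1 i T
  have hXp : 0 < X i T := by linarith
  have hpw : 1 ≤ X i T ^ (κ + ε) := Real.one_le_rpow hX1 (by linarith)
  by_cases hbig : X₃ ≤ X i T
  swap
  · push Not at hbig
    have h1 := hcr i (1 / 2 + T * Complex.I) (by simp; norm_num)
    have e1 : (1 / 2 + (T : ℂ) * Complex.I).im = T := by simp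
    rw [e1] at h1
    have h2 : X i T ^ BC ≤ X₃ ^ BC := Real.rpow_le_rpow hXp.le hbig.le hBC
    have h3 : CC * X i T ^ BC ≤ CC * X₃ ^ BC := mul_le_mul_of_nonneg_left h2 hCC
    have h4 : 0 ≤ CC * X₃ ^ BC := by
      have : 0 ≤ X₃ := by linarith
      positivity
    calc ‖L i (1 / 2 + T * Complex.I)‖ ≤ CC * X₃ ^ BC := h1.trans h3
      _ ≤ 1 + CC * X₃ ^ BC := by linarith
      _ ≤ (1 + CC * X₃ ^ BC) * X i T ^ (κ + ε) := le_mul_of_one_le_right (by linarith) hpw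
  -- the main case
  have hmain : ‖L i (1 / 2 + T * Complex.I)‖ ≤ X i T ^ (κ + 6 * e) := by
    by_contra hcon
    push Not at hcon
    have hV1 : 1 ≤ ‖L i (1 / 2 + T * Complex.I)‖ :=
      (Real.one_le_rpow hX1 (by linarith)).trans hcon.le
    obtain ⟨hD0, T₀, hT₀, hVV, hthin⟩ := hl i T (by linarith) hV1
    set V : ℝ := ‖L i (1 / 2 + T * Complex.I)‖ with hVd
    have hX0 : 1 ≤ X i T₀ := H.X1 i T₀
    have hX0p : 0 < X i T₀ := by linarith
    have hQ1 : 1 ≤ Q i T := H.Q1 i T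
    have hQ01 : 1 ≤ Q i T₀ := H.Q1 i T₀
    -- comparison of the conductors
    have c1 : X i T₀ ≤ K * X i T := by
      have h1 := hXs i T (T₀ - T)
      rw [add_sub_cancel] at h1
      refine h1.trans (mul_le_mul_of_nonneg_right ?_ hXp.le)
      exact Real.rpow_le_rpow (by positivity) (by linarith) hmX
    have c2 : X i T ≤ K * X i T₀ := by
      have h1 := hXs i T₀ (T - T₀)
      rw [add_sub_cancel] at h1
      refine h1.trans (mul_le_mul_of_nonneg_right ?_ hX0p.le)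
      exact Real.rpow_le_rpow (by positivity) (by rw [abs_sub_comm]; linarith) hmX
    have c3 : Q i T ≤ K' * Q i T₀ := by
      have h1 := hQs i T₀ (T - T₀)
      rw [add_sub_cancel] at h1
      refine h1.trans (mul_le_mul_of_nonneg_right ?_ (by linarith))
      exact Real.rpow_le_rpow (by positivity) (by rw [abs_sub_comm]; linarith) hmQ
    have l1 : Real.log (X i T₀) ≤ Real.log K + Real.log (X i T) := by
      rw [← Real.log_mul (by linarith) (by linarith)]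
      exact Real.log_le_log hX0p c1
    have l2 : Real.log (X i T) ≤ Real.log K + Real.log (X i T₀) := by
      rw [← Real.log_mul (by linarith) (by linarith)]
      exact Real.log_le_log hXp c2
    have l3 : Real.log (Q i T) ≤ Real.log K' + Real.log (Q i T₀) := by
      rw [← Real.log_mul (by linarith) (by linarith)]
      exact Real.log_le_log (by linarith) c3
    -- size of `log X`
    have hΛ : Real.log K + (4 * κ * Real.log K + Real.log K') / e ≤ Real.log (X i T) := by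
      rw [Real.le_log_iff_exp_le hXp]
      linarith
    have hdiv0 : 0 ≤ (4 * κ * Real.log K + Real.log K') / e := by positivity
    have hΛK : Real.log K ≤ Real.log (X i T) := by linarith
    have hΛe : 4 * κ * Real.log K + Real.log K' ≤ e * Real.log (X i T) := by
      have h1 : (4 * κ * Real.log K + Real.log K') / e ≤ Real.log (X i T) := by linarith
      rw [div_le_iff₀ he0] at h1
      linarith
    have hΛ0 : 0 ≤ Real.log (X i T) := Real.log_nonneg hX1
    have hΛ00 : 0 ≤ Real.log (X i T₀) := Real.log_nonneg hX0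
    -- thick set at `T₀`
    obtain ⟨r, hr0, hrc, hthick⟩ := hX₂ i T₀ (by
      have h1 : K * |X₂| ≤ K * X i T₀ := by linarith
      have h2 : |X₂| ≤ X i T₀ := le_of_mul_le_mul_left h1 (by linarith)
      exact (le_abs_self _).trans h2)
    have hth := hthin r hr0 hrc
    have hlev : X i T₀ ^ (κ + e) ≤ X i T ^ (-e) * V := by
      have h5 : X i T₀ ^ (κ + e) ≤ (K * X i T) ^ (κ + e) :=
        Real.rpow_le_rpow hX0p.le c1 (by linarith)
      rw [Real.mul_rpow (by linarith) hXp.le] at h5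
      have h6 : K ^ (κ + e) ≤ X i T ^ (4 * e) :=
        W587.PL.large_of_rpow (by positivity) (by linarith) (by linarith)
      calc X i T₀ ^ (κ + e) ≤ K ^ (κ + e) * X i T ^ (κ + e) := h5
        _ ≤ X i T ^ (4 * e) * X i T ^ (κ + e) := mul_le_mul_of_nonneg_right h6 (by positivity)
        _ = X i T ^ (-e) * X i T ^ (κ + 6 * e) := by
            rw [← Real.rpow_add hXp, ← Real.rpow_add hXp]; congr 1; ring
        _ ≤ X i T ^ (-e) * V := mul_le_mul_of_nonneg_left hcon.le (by positivity)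
    -- comparison of the thresholds
    have hlV : (κ + 6 * e) * Real.log (X i T) ≤ Real.log V := by
      rw [← Real.log_rpow hXp]
      exact Real.log_le_log (by positivity) hcon.le
    have hDDle : DD L X Q i e T ≤ max (Real.log (Q i T₀) - 4 * κ * Real.log (X i T₀)) 0 := by
      refine le_trans ?_ (le_max_left _ _)
      have e1 : DD L X Q i e T = Real.log (Q i T) - 4 * Real.log V + e * Real.log (X i T) := rfl
      rw [e1]
      have h7 : 0 ≤ e * Real.log (X i T) := by positivity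
      have h8 : κ * Real.log (X i T₀) ≤ κ * (Real.log K + Real.log (X i T)) :=
        mul_le_mul_of_nonneg_left l1 hκ
      nlinarith
    have hfin : 41 * r * Real.exp (-(e * Real.log (X i T) / (2 * (1 + r * DD L X Q i e T)))) ≤
        41 * r * Real.exp (-(e * Real.log (X i T₀) /
          (4 * (1 + r * max (Real.log (Q i T₀) - 4 * κ * Real.log (X i T₀)) 0)))) := by
      refine mul_le_mul_of_nonneg_left (Real.exp_le_exp.2 (neg_le_neg ?_)) (by positivity)
      have h9 : 0 < 1 + r * DD L X Q i e T := by positivity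
      have h10 : 1 + r * DD L X Q i e T ≤
          1 + r * max (Real.log (Q i T₀) - 4 * κ * Real.log (X i T₀)) 0 := by
        have := mul_le_mul_of_nonneg_left hDDle hr0.le
        linarith
      calc e * Real.log (X i T₀) /
            (4 * (1 + r * max (Real.log (Q i T₀) - 4 * κ * Real.log (X i T₀)) 0))
          ≤ e * Real.log (X i T₀) / (4 * (1 + r * DD L X Q i e T)) :=
            div_le_div_of_nonneg_left (by positivity) (by positivity) (by linarith)
        _ ≤ e * (2 * Real.log (X i T)) / (4 * (1 + r * DD L X Q i e T)) := by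
            apply div_le_div_of_nonneg_right _ (by positivity)
            exact mul_le_mul_of_nonneg_left (by linarith) he0.le
        _ = e * Real.log (X i T) / (2 * (1 + r * DD L X Q i e T)) := by
            field_simp; ring
    have hc := lt_of_lt_of_le hthick ((measure_mono (Low_mono hlev)).trans
      (hth.trans (ENNReal.ofReal_le_ofReal hfin)))
    exact absurd hc (lt_irrefl _)
  have h1 : X i T ^ (κ + 6 * e) ≤ X i T ^ (κ + ε) :=
    Real.rpow_le_rpow_of_exponent_le hX1 (by linarith)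
  have h4 : 0 ≤ CC * X₃ ^ BC := by
    have : 0 ≤ X₃ := by linarith
    positivity
  calc _ ≤ X i T ^ (κ + ε) := hmain.trans h1
    _ ≤ (1 + CC * X₃ ^ BC) * X i T ^ (κ + ε) :=
      le_mul_of_one_le_left (by linarith) (by linarith)

lemma exp_four : Real.exp (-4) ≤ 0.02 := by
  have h7 : Real.exp 4 = Real.exp 1 ^ 4 := by
    rw [← Real.exp_nat_mul]; norm_num
  have h6 := Real.exp_one_gt_d9
  have h8 : 50 ≤ Real.exp 4 := by
    rw [h7]
    have : (2.7 : ℝ) ^ 4 ≤ Real.exp 1 ^ 4 := pow_le_pow_left₀ (by norm_num) (by linarith) 4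
    have h9 : (50 : ℝ) ≤ (2.7 : ℝ) ^ 4 := by norm_num
    linarith
  rw [Real.exp_neg, inv_le_comm₀ (Real.exp_pos _) (by norm_num)]
  norm_num
  exact h8

theorem thick_of_exponent (H : Fam2 L X Q) {b c : ℝ} (hb : 0 ≤ b)
    (hQX : ∀ i t, Q i t ≤ X i t ^ b) (hc : 0 < c) (hcb : 32 * (b + 1) * c ≤ 1)
    {κ : ℝ} (hκ : 0 ≤ κ) (hE : Exponent L X κ) : Thick L X Q c κ := by
  intro ε hε hε1
  obtain ⟨mX, hmX, hXs⟩ := H.Xs
  obtain ⟨C, hC⟩ := hE (ε / 2) (by linarith)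
  set K : ℝ := (1 + |C|) * ((2:ℝ) ^ mX) ^ (κ + ε / 2) with hK
  have hK0 : 0 < K := by
    have := abs_nonneg C
    positivity
  refine ⟨K ^ (1 / (ε / 2)) + Real.exp (32 / ε), fun i T hT => ?_⟩
  have hKp : 0 ≤ K ^ (1 / (ε / 2)) := by positivity
  have hep := Real.exp_pos (32 / ε)
  have hX1 := H.X1 i T
  have hXp : 0 < X i T := by linarith
  have hlog : 32 / ε ≤ Real.log (X i T) := by
    rw [Real.le_log_iff_exp_le hXp]; linarith
  have hlog0 : 0 < Real.log (X i T) := lt_of_lt_of_le (by positivity) hlog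
  have hεΛ : 32 ≤ ε * Real.log (X i T) := by
    rw [div_le_iff₀ hε] at hlog; linarith
  refine ⟨c * ε, by positivity, le_rfl, ?_⟩
  set r : ℝ := c * ε with hr
  have hr0 : 0 < r := by positivity
  have hc1 : c ≤ 1 := by nlinarith [mul_nonneg hb hc.le]
  have hr1 : r ≤ 1 := by
    calc r = c * ε := hr
      _ ≤ 1 * 1 := mul_le_mul hc1 hε1 hε.le zero_le_one
      _ = 1 := one_mul 1
  have hsub : Icc (T - r) (T + r) ⊆ Low L i T r (X i T ^ (κ + ε)) := by
    intro t ht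
    have ht1 := ht.1
    have ht2 := ht.2
    refine ⟨1 / 2 + t * Complex.I, by simp, ?_, ?_⟩
    · have e : (1 / 2 + (t : ℂ) * Complex.I) - (1 / 2 + T * Complex.I) = ((t - T : ℝ) : ℂ) * Complex.I := by
        push_cast; ring
      rw [e, norm_mul, Complex.norm_I, mul_one, Complex.norm_real, Real.norm_eq_abs, abs_le]
      constructor <;> linarith
    · have h1 := hC i t
      refine h1.trans ?_
      have hs := hXs i T (t - T)
      rw [add_sub_cancel] at hs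
      have hab : |t - T| ≤ 1 := by
        rw [abs_le]; constructor <;> linarith
      have hs' : X i t ≤ (2:ℝ) ^ mX * X i T := by
        refine hs.trans (mul_le_mul_of_nonneg_right ?_ hXp.le)
        exact Real.rpow_le_rpow (by positivity) (by linarith) hmX
      have hXt := H.X1 i t
      have h2 : X i t ^ (κ + ε / 2) ≤ ((2:ℝ) ^ mX * X i T) ^ (κ + ε / 2) :=
        Real.rpow_le_rpow (by linarith) hs' (by linarith)
      rw [Real.mul_rpow (by positivity) hXp.le] at h2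
      have h5 : K ≤ X i T ^ (ε / 2) := W587.PL.large_of_rpow hK0 (by linarith) (by linarith)
      calc C * X i t ^ (κ + ε / 2) ≤ (1 + |C|) * (((2:ℝ) ^ mX) ^ (κ + ε / 2) * X i T ^ (κ + ε / 2)) :=
            mul_le_mul (by linarith [le_abs_self C]) h2 (by positivity) (by positivity)
        _ = K * X i T ^ (κ + ε / 2) := by rw [hK]; ring
        _ ≤ X i T ^ (ε / 2) * X i T ^ (κ + ε / 2) := mul_le_mul_of_nonneg_right h5 (by positivity)
        _ = X i T ^ (κ + ε) := by rw [← Real.rpow_add hXp]; congr 1; ring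
  refine lt_of_lt_of_le ?_ (measure_mono hsub)
  rw [Real.volume_Icc]
  apply (ENNReal.ofReal_lt_ofReal_iff (by linarith)).2
  have hQ1 := H.Q1 i T
  have hlQ : Real.log (Q i T) ≤ b * Real.log (X i T) := by
    have := Real.log_le_log (by linarith) (hQX i T)
    rwa [Real.log_rpow hXp] at this
  have hD : max (Real.log (Q i T) - 4 * κ * Real.log (X i T)) 0 ≤ b * Real.log (X i T) := by
    apply max_le
    · have : 0 ≤ 4 * κ * Real.log (X i T) := by positivity
      linarith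
    · positivity
  have hD0 : 0 ≤ max (Real.log (Q i T) - 4 * κ * Real.log (X i T)) 0 := le_max_right _ _
  have hrD : r * max (Real.log (Q i T) - 4 * κ * Real.log (X i T)) 0 ≤
      ε * Real.log (X i T) / 32 := by
    calc r * max (Real.log (Q i T) - 4 * κ * Real.log (X i T)) 0 ≤ r * (b * Real.log (X i T)) :=
          mul_le_mul_of_nonneg_left hD hr0.le
      _ = (b * c) * (ε * Real.log (X i T)) := by rw [hr]; ring
      _ ≤ (1 / 32) * (ε * Real.log (X i T)) := by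
          apply mul_le_mul_of_nonneg_right _ (by positivity)
          nlinarith
      _ = _ := by ring
  have hlam : 4 ≤ ε * Real.log (X i T) /
      (4 * (1 + r * max (Real.log (Q i T) - 4 * κ * Real.log (X i T)) 0)) := by
    rw [le_div_iff₀ (by positivity)]
    linarith
  have h11 : Real.exp (-(ε * Real.log (X i T) /
      (4 * (1 + r * max (Real.log (Q i T) - 4 * κ * Real.log (X i T)) 0)))) ≤ 0.02 :=
    (Real.exp_le_exp.2 (neg_le_neg hlam)).trans exp_four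
  have h12 := mul_le_mul_of_nonneg_left h11 (by positivity : 0 ≤ 41 * r)
  linarith

/-- the law and the criterion, with the same constant -/
theorem main (H : Fam2 L X Q) : ∃ c : ℝ, 0 < c ∧ (∀ ε : ℝ, 0 < ε → ε ≤ 1 →
    ∃ W X₁ : ℝ, ∀ (i : ι) (T : ℝ), X₁ ≤ X i T → 1 ≤ ‖L i (1 / 2 + T * Complex.I)‖ →
      0 < DD L X Q i ε T ∧
      ∃ T₀ : ℝ, |T₀ - T| ≤ W ∧ ‖L i (1 / 2 + T * Complex.I)‖ ≤ ‖L i (1 / 2 + T₀ * Complex.I)‖ ∧
        ∀ r : ℝ, 0 < r → r ≤ c * ε →
          volume (Low L i T₀ r (X i T ^ (-ε) * ‖L i (1 / 2 + T * Complex.I)‖)) ≤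
            ENNReal.ofReal (41 * r * Real.exp (-(ε * Real.log (X i T) /
              (2 * (1 + r * DD L X Q i ε T)))))) ∧
    ∀ κ : ℝ, 0 ≤ κ → (Exponent L X κ ↔ Thick L X Q c κ) := by
  obtain ⟨c₁, hc₁, hlaw⟩ := law2 H
  obtain ⟨b, hb, hQX⟩ := H.QX
  set c : ℝ := min c₁ (1 / (32 * (b + 1))) with hc
  have hc0 : 0 < c := lt_min hc₁ (by positivity)
  have hcc : c ≤ c₁ := min_le_left _ _
  have hcb : 32 * (b + 1) * c ≤ 1 := by
    have h1 : c ≤ 1 / (32 * (b + 1)) := min_le_right _ _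
    rw [le_div_iff₀ (by positivity)] at h1
    linarith
  have hlaw' : ∀ ε : ℝ, 0 < ε → ε ≤ 1 →
      ∃ W X₁ : ℝ, 0 ≤ W ∧ 1 ≤ X₁ ∧ ∀ (i : ι) (T : ℝ), X₁ ≤ X i T →
        1 ≤ ‖L i (1 / 2 + T * Complex.I)‖ → 0 < DD L X Q i ε T ∧
      ∃ T₀ : ℝ, |T₀ - T| ≤ W ∧ ‖L i (1 / 2 + T * Complex.I)‖ ≤ ‖L i (1 / 2 + T₀ * Complex.I)‖ ∧
        ∀ r : ℝ, 0 < r → r ≤ c * ε →
          volume (Low L i T₀ r (X i T ^ (-ε) * ‖L i (1 / 2 + T * Complex.I)‖)) ≤
            ENNReal.ofReal (41 * r * Real.exp (-(ε * Real.log (X i T) /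
              (2 * (1 + r * DD L X Q i ε T))))) := by
    intro ε hε hε1
    obtain ⟨W, X₁, hW, hX₁, h⟩ := hlaw ε hε hε1
    refine ⟨W, X₁, hW, hX₁, fun i T hX hV => ?_⟩
    obtain ⟨hD, T₀, h1, h2, h3⟩ := h i T hX hV
    exact ⟨hD, T₀, h1, h2, fun r hr hrc => h3 r hr (hrc.trans
      (mul_le_mul_of_nonneg_right hcc hε.le))⟩
  refine ⟨c, hc0, fun ε hε hε1 => ?_, fun κ hκ => ⟨fun hE => thick_of_exponent H hb hQX hc0 hcb hκ hE,
    fun h => exponent_of_thick H hlaw' hκ h⟩⟩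
  obtain ⟨W, X₁, _, _, h⟩ := hlaw' ε hε hε1
  exact ⟨W, X₁, h⟩

end Pool.Agent.R303.LG
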